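import Pool.Agent.PCL.Stmts

set_option autoImplicit false

namespace Pool.Agent.PCL.H55

theorem gap : Pool.Agent.PCL.GapStmt := by
  intro ι _ N t ht
  by_contra hcon
  push Not at hcon
  choose f hf using hcon
  let F : Fin (Fintype.card ι + 1) → ι := fun k => f k.1 (Nat.lt_succ_iff.mp k.2)
  have hF : ∀ k : Fin (Fintype.card ι + 1), t k.1 ≤ N (F k) ∧ N (F k) < t (k.1 + 1) :=
    fun k => hf k.1 (Nat.lt_succ_iff.mp k.2)
  have key : ∀ k l : Fin (Fintype.card ι + 1), F k = F l → ¬ k.1 < l.1 := by
    intro k l hkl hlt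
    have h1 := (hF k).2
    have h2 := (hF l).1
    rw [hkl] at h1
    have h3 : t (k.1 + 1) ≤ t l.1 := ht hlt
    omega
  have hinj : Function.Injective F := by
    intro k l hkl
    apply Fin.ext
    have h1 := key k l hkl
    have h2 := key l k hkl.symm
    omega
  have := Fintype.card_le_of_injective F hinj
  simp at this

end Pool.Agent.PCL.H55
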