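import Pool.Agent.PCL.Stmts

set_option autoImplicit false

namespace Pool.Agent.PCL.H55

theorem pig : Pool.Agent.PCL.PigStmt := by
  classical
  intro ι _ _ g N a e P hg he hP
  let ln : ℂ → Finset ℂ := fun z₀ => P.filter fun p => ∃ t : ℝ, p = z₀ + t * e
  have h0 : (0 : ι → ℤ) ∈ bx N 9 := by
    rw [mem_bx]
    intro i
    simp
  obtain ⟨y₀, hy₀, hmax⟩ := Finset.exists_max_image (bx N 9)
    (fun y => (ln (a + pt g y)).card) ⟨0, h0⟩
  have hex : ∀ z : ℂ, ∃ x : ι → ℤ, z ∈ P → x ∈ bx N 1 ∧ z = a + pt g x := by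
    intro z
    by_cases hz : z ∈ P
    · obtain ⟨x, hx, hzx⟩ := hP z hz
      exact ⟨x, fun _ => ⟨hx, hzx⟩⟩
    · exact ⟨0, fun h => absurd h hz⟩
  choose X hX using hex
  let L : Finset (ι → ℤ) := (bx N 8).filter fun x => x ∈ Lat g e
  have hmaps : ∀ q ∈ P ×ˢ L, X q.1 + q.2 ∈ bx N 9 := by
    intro q hq
    rw [Finset.mem_product] at hq
    have h1 := (hX q.1 hq.1).1
    have h2 := (Finset.mem_filter.mp hq.2).1
    rw [mem_bx] at h1 h2 ⊢
    intro i
    have h3 := h1 i
    have h4 := h2 i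
    have h5 : |((X q.1 i : ℤ) : ℝ) + ((q.2 i : ℤ) : ℝ)| ≤
      |((X q.1 i : ℤ) : ℝ)| + |((q.2 i : ℤ) : ℝ)| := abs_add_le _ _
    simp only [Pi.add_apply, Int.cast_add]
    nlinarith
  have hfib : ∀ y ∈ bx N 9, ((P ×ˢ L).filter fun q => X q.1 + q.2 = y).card ≤
      (ln (a + pt g y₀)).card := by
    intro y hy
    refine le_trans ?_ (hmax y hy)
    refine Finset.card_le_card_of_injOn (fun q => q.1) ?_ ?_
    · intro q hq
      have hq' := Finset.mem_filter.mp hq
      have hq1 := Finset.mem_product.mp hq'.1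
      have h1 := (hX q.1 hq1.1).2
      obtain ⟨t, ht⟩ := (Finset.mem_filter.mp hq1.2).2
      refine Finset.mem_filter.mpr ⟨hq1.1, -t, ?_⟩
      have h2 : pt g y = pt g (X q.1) + pt g q.2 := by
        rw [← hq'.2, pt_add]
      rw [h2, ht]
      push_cast
      linear_combination h1
    · intro q hq q' hq' h
      have hq1 := (Finset.mem_filter.mp hq).2
      have hq1' := (Finset.mem_filter.mp hq').2
      have h' : q.1 = q'.1 := h
      apply Prod.ext h'
      rw [← hq1', h'] at hq1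
      exact add_left_cancel hq1
  have hmain := Finset.card_le_mul_card_image_of_maps_to (f := fun q : ℂ × (ι → ℤ) => X q.1 + q.2)
    hmaps _ hfib
  rw [Finset.card_product] at hmain
  refine ⟨a + pt g y₀, ?_⟩
  have h6 : P.card * L.card ≤ (bx N 9).card * (ln (a + pt g y₀)).card := by
    rw [mul_comm ((bx N 9).card)]
    exact hmain
  have h7 : cnt (Lat g e) N 8 = L.card := rfl
  rw [h7]
  exact_mod_cast h6

end Pool.Agent.PCL.H55
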